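import Mathlib
import Pool.Agent.Q125.VK.Main

/-!
# The unknotting number equals the unknotting sequence number for all virtual knots

Virtual knots are Gauss diagrams modulo the Reidemeister moves (`Pool.Agent.Q125.VK.Defs`). The
theorem says `u(K) = us(K)` in `ℕ∞` for every virtual knot `K`; in particular one side is infinite
iff the other one is.

Idea of the proof: along an unknotting sequence that starts at a diagram `D` we keep a diagram `D'`
of the same knot as `D`, a part of which is called junk, such that the other (real) ends form the
current diagram `E` of the sequence, and such that after changing all the crossings of a set `S` of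
junk crossings the whole junk can be removed by first and second Reidemeister moves, even if the
real ends are kept as obstacles. A removal move on `E` turns real ends into junk, which cancels
after the change; an adding move is done next to a real end. For a third Reidemeister move on `E`,
three pairs of parallel copies of the three crossings are added next to the real ends by second
Reidemeister moves, the move is applied to three of the copies and the old crossings become junk. A
crossing change of `E` is replaced by: a pair of copies of the changed crossing is added by a
second Reidemeister move, one of them becomes real, and the other one cancels with the old crossing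
after the change of the latter, which is put into `S`. When `E` is the diagram without crossings,
changing all the crossings of `S` at once in `D'` gives the unknot.
-/

set_option autoImplicit false

namespace Pool.Agent.Results.MP_69d501_gt.SequenceEqualsUnknotting

open Pool.Agent.Q125.VK

/-- `UnknottingSequence K k`: there is a procedure which starts at a diagram of `K`, alternates
between diagrammatic moves and changes of sets of crossings, ends with a diagram of the unknot, and
uses `k` crossing changes altogether. In one step a diagram `D` of the current knot is chosen and
the crossings in `S` are changed. -/
inductive UnknottingSequence : VirtualKnot → ℕ → Prop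
  | done : UnknottingSequence unknot 0
  | step (D : Diagram) (S : Finset ℕ) (hS : S ⊆ crossings D.1) (k : ℕ)
      (h : UnknottingSequence (knot (D.change S)) k) : UnknottingSequence (knot D) (S.card + k)

/-- The unknotting number: the minimal number of crossing changes on a diagram of `K`, all made at
once, which give a diagram of the unknot (`⊤` if there are none). -/
noncomputable def unknottingNumber (K : VirtualKnot) : ℕ∞ :=
  sInf {n | ∃ (D : Diagram) (S : Finset ℕ), knot D = K ∧ S ⊆ crossings D.1 ∧
    knot (D.change S) = unknot ∧ n = S.card}

/-- The unknotting sequence number: the minimal number of crossing changes in a procedure which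
alternates between moves and crossing changes and ends with the unknot (`⊤` if there are none). -/
noncomputable def unknottingSequenceNumber (K : VirtualKnot) : ℕ∞ :=
  sInf {n | ∃ k : ℕ, UnknottingSequence K k ∧ n = k}

theorem simultaneous {K : VirtualKnot} {k : ℕ} (h : UnknottingSequence K k) :
    ∀ (D E : Diagram) (S : Finset ℕ) (w : List Lt), knot E = K → Rep cop D.1 E.1 S w →
      ∃ (D' : Diagram) (S' : Finset ℕ), knot D' = knot D ∧ S' ⊆ crossings D'.1 ∧
        knot (D'.change S') = unknot ∧ S'.card = S.card + k := by
  induction h with
  | done =>
    intro D E S w hE hw
    obtain ⟨S', w', h1, h2⟩ := hw.of_knot_eq cop_law (E' := ⟨[], isGauss_nil⟩) hE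
    obtain ⟨D', h3, h4, h5⟩ := h1.final_change
    exact ⟨D', S', h3, h4, h5, by simpa using h2⟩
  | step D1 S1 hS k _ ih =>
    intro D E S w hE hw
    obtain ⟨S', w', h1, h2⟩ := hw.of_knot_eq cop_law (E' := D1) hE
    obtain ⟨S'', w'', h3, h4⟩ := Rep.change D1.2 S1 S' w' h1 hS
    obtain ⟨D', T, h5, h6, h7, h8⟩ := ih D (D1.change S1) S'' w'' rfl h3
    exact ⟨D', T, h5, h6, h7, by omega⟩

/-- For every virtual knot `K` the unknotting number and the unknotting sequence number are
equal. -/
theorem result (K : VirtualKnot) : unknottingNumber K = unknottingSequenceNumber K := by
  apply le_antisymm
  · apply le_sInf
    rintro _ ⟨k, hk, rfl⟩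
    obtain ⟨D, rfl⟩ := Quot.exists_rep K
    obtain ⟨D', S', h1, h2, h3, h4⟩ := simultaneous hk D D ∅ _ rfl (Rep.init cop D.2)
    apply sInf_le
    exact ⟨D', S', h1, h2, h3, by rw [h4]; simp⟩
  · apply le_sInf
    rintro _ ⟨D, S, rfl, hS, hD, rfl⟩
    apply sInf_le
    refine ⟨S.card + 0, UnknottingSequence.step D S hS 0 ?_, by simp⟩
    rw [hD]
    exact UnknottingSequence.done

end Pool.Agent.Results.MP_69d501_gt.SequenceEqualsUnknotting
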